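import Pool.Agent.LocH.Fin
import Pool.Agent.LocH.TI
import Pool.Agent.LH4.Fi6
import Pool.Agent.LH4.Sym

/-!
# The first five steps of the local h-vector of every geometric subdivision

For every geometric subdivision of the simplex with `d` vertices the local h-vector satisfies
`l_i ≤ l_(i+1)` for all `i ≤ 4` with `2 i < d`.  In particular it is unimodal for `d ≤ 11`.
-/

namespace Pool.Agent.Results.MP_230912_co.FirstSteps

open Pool.LH12

theorem result :
    (∀ (d : ℕ) (S : GeomSub d) (i : ℕ), i ≤ 4 → 2 * i < d →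
      S.localH.coeff i ≤ S.localH.coeff (i + 1)) ∧
    (∀ d : ℕ, d ≤ 11 → ∀ S : GeomSub d, ∀ i : ℕ, i < d / 2 →
      S.localH.coeff i ≤ S.localH.coeff (i + 1)) := by
  have h : ∀ (d : ℕ) (S : GeomSub d) (i : ℕ), i ≤ 4 → 2 * i < d →
      S.localH.coeff i ≤ S.localH.coeff (i + 1) := by
    intro d S i hi hd
    obtain ⟨S', h1, h2, h3⟩ := S.exists_sub
    rw [← S.ell_eq S' h1 h2]
    have := S'.charP_K
    rcases Nat.lt_or_ge i 4 with h4 | h4
    · exact S'.first_steps (h3 _) _ i (by omega) (by simpa using hd)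
    · obtain rfl : i = 4 := by omega
      rcases Nat.lt_or_ge d 10 with h5 | h5
      · obtain rfl : d = 9 := by omega
        exact (Pool.Agent.LH4.ell_mid (h3 _) (by simp)).le
      · exact Pool.Agent.LH4.step4_ge10 (h3 _) (by simpa using h5)
  exact ⟨h, fun d hd S i hi => h d S i (by omega) (by omega)⟩

end Pool.Agent.Results.MP_230912_co.FirstSteps
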