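import Pool.Agent.LocH.TI
import Pool.Agent.LH5.Main

/-!
# Unimodality in all dimensions when the new vertices have large carriers

If every vertex of a geometric subdivision of the simplex with `d` vertices is a vertex of the
simplex or has a carrier with at least `d - 4` elements, then the local h-vector is unimodal.
-/

namespace Pool.Agent.Results.MP_230912_co.LargeCarriers

open Pool.LH12

theorem result (d : ℕ) (S : GeomSub d)
    (h : ∀ v ∈ S.K.vertices, (carrier {v}).card = 1 ∨ d ≤ (carrier {v}).card + 4)
    (i : ℕ) (hi : 2 * i < d) : S.localH.coeff i ≤ S.localH.coeff (i + 1) := by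
  obtain ⟨S', h1, h2, h3⟩ := S.exists_sub
  rw [← S.ell_eq S' h1 h2]
  have := S'.charP_K
  refine Pool.Agent.LH5.ell_four (h3 _) ?_ (by simpa using hi)
  intro v _
  rw [h2, Finset.card_univ, Fintype.card_fin]
  apply h
  have h4 := (h1 {v}).1 (S'.vert v)
  rw [Finset.map_singleton] at h4
  unfold GeomSub.allFaces at h4
  rw [Finset.mem_insert] at h4
  rcases h4 with h4 | h4
  · exact absurd h4 (Finset.singleton_ne_empty _)
  · rw [Set.Finite.mem_toFinset] at h4
    exact h4

end Pool.Agent.Results.MP_230912_co.LargeCarriers
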