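import Pool.Agent.LocH.TI
import Pool.Agent.LH5.Main

/-!
# Unimodality in all dimensions when the large carriers do not differ much

If for any two vertices `v`, `w` of a geometric subdivision the carrier of `w` has at most two elements
or the carrier of `v` has at most two elements outside the carrier of `w`, then the local h-vector is
unimodal.
-/

namespace Pool.Agent.Results.MP_230912_co.SmallDifferences

open Pool.LH12

theorem result (d : ℕ) (S : GeomSub d)
    (h : ∀ v ∈ S.K.vertices, ∀ w ∈ S.K.vertices,
      (carrier {w}).card ≤ 2 ∨ (carrier {v} \ carrier {w}).card ≤ 2)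
    (i : ℕ) (hi : 2 * i < d) : S.localH.coeff i ≤ S.localH.coeff (i + 1) := by
  obtain ⟨S', h1, h2, h3⟩ := S.exists_sub
  rw [← S.ell_eq S' h1 h2]
  have := S'.charP_K
  have h5 : ∀ v : {v // v ∈ S.vset}, v.1 ∈ S.K.vertices := by
    intro v
    have h4 := (h1 {v}).1 (S'.vert v)
    rw [Finset.map_singleton] at h4
    unfold GeomSub.allFaces at h4
    rw [Finset.mem_insert] at h4
    rcases h4 with h4 | h4
    · exact absurd h4 (Finset.singleton_ne_empty _)
    · rw [Set.Finite.mem_toFinset] at h4
      exact h4
  refine Pool.Agent.LH5.ell_small (h3 _) (fun v w _ _ => ?_) (by simpa using hi)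
  rw [h2, h2]
  exact h v.1 (h5 v) w.1 (h5 w)

end Pool.Agent.Results.MP_230912_co.SmallDifferences
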