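import Pool.Agent.LocH.FinK
import Pool.Agent.LH4.Fi6
import Pool.Agent.LH4.Sym

/-!
# The first five steps for vertex induced homology subdivisions

`S : Sub X Ω` is a finite simplicial complex on the vertex set `X` with carriers in `Ω`, the carrier
of a face being the union of the carriers of its vertices.  `S.Top (ZMod 2)` says that, for every
nonempty `W`, the restriction to `W` has the relative homology and the relative local homology of a
ball of dimension `#W - 1` whose interior faces are the faces with carrier `W`.  No geometric
realisation is required.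
-/

namespace Pool.Agent.Results.MP_230912_co.VertexInduced

open Pool.Agent.LocH Finset

theorem result {X Ω : Type} [Fintype X] [DecidableEq X] [Fintype Ω] [DecidableEq Ω] (S : Sub X Ω)
    (hS : S.Top (ZMod 2)) :
    (∀ i : ℕ, i ≤ 4 → 2 * i < Fintype.card Ω →
      (S.ell univ).coeff i ≤ (S.ell univ).coeff (i + 1)) ∧
    (Fintype.card Ω ≤ 11 → ∀ i : ℕ, i < Fintype.card Ω / 2 →
      (S.ell univ).coeff i ≤ (S.ell univ).coeff (i + 1)) := by
  have h : ∀ i : ℕ, i ≤ 4 → 2 * i < Fintype.card Ω →
      (S.ell univ).coeff i ≤ (S.ell univ).coeff (i + 1) := by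
    intro i hi hd
    have := S.charP_K
    have hT := S.top_of_two hS S.K
    rcases Nat.lt_or_ge i 4 with h4 | h4
    · exact S.first_steps hT _ i (by omega) (by simpa using hd)
    · obtain rfl : i = 4 := by omega
      rcases Nat.lt_or_ge (Fintype.card Ω) 10 with h5 | h5
      · exact (Pool.Agent.LH4.ell_mid hT (by rw [Finset.card_univ]; omega)).le
      · exact Pool.Agent.LH4.step4_ge10 hT (by simpa using h5)
  exact ⟨h, fun _ i hi => h i (by omega) (by omega)⟩

end Pool.Agent.Results.MP_230912_co.VertexInduced
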